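import Pool.Agent.H8.DS.TarG

/-!
# Module HEX of ds_modules: first return, forward and backward, in flat tori
-/

set_option autoImplicit false

namespace DS

open Set Data

theorem pf_HEX (hUPZ : T_UPZ) (hDNZ : T_DNZ) (hUPF : T_UPF) (hEQV : T_EQV) : T_HEX := by
  intro C S _ X hX t ht y hy
  refine ⟨fun hc => ?_, fun hc => ?_⟩
  · rcases hUPZ C S X hX t (X.comp (X.glue y.1)) (X.pt (X.glue y.1) y.2) (fun h => absurd h hc) with
      h | h | h | h
    · obtain ⟨k, hk, hk'⟩ := (hUPF C S X hX t ht _ hc (X.pt (X.glue y.1) y.2)).1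
      exact absurd (h k hk) hk'
    · obtain ⟨s, hs, g, hg, ξ, hξ, h, hh, hcl, hf⟩ := h
      left
      refine ⟨(s, ξ), hy, hξ, hs, g, ?_, h, hh, hcl, hf⟩
      show g ∈ X.deck (X.comp s)
      rw [hs]
      exact hg
    · obtain ⟨h, hh, hcl, he⟩ := h
      exact Or.inr ⟨h, hh, hcl, he⟩
    · exact absurd h.1 hc
  · rcases hDNZ C S X hX t (X.comp y.1) (X.pt y.1 y.2) (fun h => absurd h hc) with
      h | h | h | h
    · obtain ⟨k, hk, hk'⟩ := (hUPF C S X hX t ht _ hc (X.pt y.1 y.2)).2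
      exact absurd (h k hk) hk'
    · obtain ⟨s, hs, g, hg, ξ, hξ, h, hh, hcl, hf⟩ := h
      left
      have hg0 : 0 < g.1 := deck_pos X hX _ g hg
      have hE := (hEQV C S X hX (X.comp y.1) g hg (X.pt s ξ)).2.2.2.2 t (h / g.1)
      rw [mul_div_cancel₀ h hg0.ne'] at hE
      have hcl' := hE.1 hcl
      refine ⟨(X.glue.symm s, ξ), hξ, hy, ?_, ginv g, ?_, h / g.1, div_pos hh hg0, ?_, ?_⟩
      · show X.comp y.1 = X.comp (X.glue (X.glue.symm s))
        rw [Equiv.apply_symm_apply]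
        exact hs.symm
      · exact deck_inv X hX _ g hg
      · show X.Clear t (X.comp (X.glue (X.glue.symm s))) (X.pt (X.glue (X.glue.symm s)) ξ)
          (h / g.1)
        rw [Equiv.apply_symm_apply, hs]
        exact hcl'
      · show fwd t (X.pt (X.glue (X.glue.symm s)) ξ) (h / g.1) = act (ginv g) (X.pt y.1 y.2)
        rw [Equiv.apply_symm_apply, hf]
        have h1 : fwd t (act g (X.pt s ξ)) h = act g (fwd t (X.pt s ξ) (h / g.1)) := by
          rw [act_fwd, mul_div_cancel₀ h hg0.ne']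
        rw [h1, act_ginv g hg0.ne']
    · obtain ⟨w, h, hh, he, hcl, hf⟩ := h
      exact Or.inr ⟨w, h, hh, he, hcl, hf⟩
    · exact absurd h.1 hc

end DS
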