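import Pool.Agent.H8.DS.TarG

/-!
# Module SLC of ds_modules: every flat torus carries a slit
-/

set_option autoImplicit false

namespace DS

open Set Data

theorem pf_SLC : T_SLC := by
  intro C S X hX c hc
  obtain ⟨c', hc'⟩ := hX.hopf
  have key : ∀ a b : C, Relation.EqvGen (fun c c' => ∃ s, X.comp s = c ∧ X.comp (X.glue s) = c')
      a b → a = b ∨ ((∃ s, X.comp s = a) ∧ ∃ s, X.comp s = b) := by
    intro a b h
    induction h with
    | rel a b h =>
      obtain ⟨s, h1, h2⟩ := h
      exact Or.inr ⟨⟨s, h1⟩, ⟨X.glue s, h2⟩⟩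
    | refl a => exact Or.inl rfl
    | symm a b _ ih =>
      rcases ih with h | ⟨h1, h2⟩
      · exact Or.inl h.symm
      · exact Or.inr ⟨h2, h1⟩
    | trans a b e _ _ ih1 ih2 =>
      rcases ih1 with rfl | ⟨h1, h2⟩
      · exact ih2
      · rcases ih2 with rfl | ⟨h3, h4⟩
        · exact Or.inr ⟨h1, h2⟩
        · exact Or.inr ⟨h1, h4⟩
  rcases key c c' (hX.conn c c') with rfl | ⟨h, -⟩
  · exact absurd hc' hc
  · exact h

end DS
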